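import Mathlib

/-! Discrete box-pleating model: quarter triangles of the unit grid (doubled coordinates). -/

namespace Pool.Agent.MP_3b5bbf_co

abbrev V := ℤ × ℤ

inductive Dir : Type
  | s | e | n | w

inductive Ed : Type
  | g | a | b

@[ext] structure Cell : Type where
  x : ℤ
  y : ℤ
  d : Dir

namespace Cell

def o (c : Cell) : V := (2 * c.x + 1, 2 * c.y + 1)

def p : Cell → V
  | ⟨x, y, .s⟩ => (2 * x, 2 * y)
  | ⟨x, y, .e⟩ => (2 * (x + 1), 2 * y)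
  | ⟨x, y, .n⟩ => (2 * (x + 1), 2 * (y + 1))
  | ⟨x, y, .w⟩ => (2 * x, 2 * (y + 1))

def q : Cell → V
  | ⟨x, y, .s⟩ => (2 * (x + 1), 2 * y)
  | ⟨x, y, .e⟩ => (2 * (x + 1), 2 * (y + 1))
  | ⟨x, y, .n⟩ => (2 * x, 2 * (y + 1))
  | ⟨x, y, .w⟩ => (2 * x, 2 * y)

def nb : Cell → Ed → Cell
  | ⟨x, y, .s⟩, .g => ⟨x, y - 1, .n⟩
  | ⟨x, y, .e⟩, .g => ⟨x + 1, y, .w⟩
  | ⟨x, y, .n⟩, .g => ⟨x, y + 1, .s⟩
  | ⟨x, y, .w⟩, .g => ⟨x - 1, y, .e⟩
  | ⟨x, y, .s⟩, .a => ⟨x, y, .w⟩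
  | ⟨x, y, .e⟩, .a => ⟨x, y, .s⟩
  | ⟨x, y, .n⟩, .a => ⟨x, y, .e⟩
  | ⟨x, y, .w⟩, .a => ⟨x, y, .n⟩
  | ⟨x, y, .s⟩, .b => ⟨x, y, .e⟩
  | ⟨x, y, .e⟩, .b => ⟨x, y, .n⟩
  | ⟨x, y, .n⟩, .b => ⟨x, y, .w⟩
  | ⟨x, y, .w⟩, .b => ⟨x, y, .s⟩

end Cell

def Ed.rev : Ed → Ed
  | .g => .g
  | .a => .b
  | .b => .a

theorem nb_nb (c : Cell) (e : Ed) : (c.nb e).nb e.rev = c := by
  rcases c with ⟨x, y, d⟩
  cases d <;> cases e <;> simp [Cell.nb, Ed.rev]

theorem rev_rev (e : Ed) : e.rev.rev = e := by cases e <;> rfl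

theorem nb_g_p (c : Cell) : (c.nb .g).p = c.q := by
  rcases c with ⟨x, y, d⟩
  cases d <;> simp [Cell.nb, Cell.p, Cell.q]

theorem nb_g_q (c : Cell) : (c.nb .g).q = c.p := by
  rcases c with ⟨x, y, d⟩
  cases d <;> simp [Cell.nb, Cell.p, Cell.q]

theorem nb_a_o (c : Cell) : (c.nb .a).o = c.o := by
  rcases c with ⟨x, y, d⟩
  cases d <;> simp [Cell.nb, Cell.o]

theorem nb_b_o (c : Cell) : (c.nb .b).o = c.o := by
  rcases c with ⟨x, y, d⟩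
  cases d <;> simp [Cell.nb, Cell.o]

theorem nb_a_q (c : Cell) : (c.nb .a).q = c.p := by
  rcases c with ⟨x, y, d⟩
  cases d <;> simp [Cell.nb, Cell.p, Cell.q]

theorem nb_b_p (c : Cell) : (c.nb .b).p = c.q := by
  rcases c with ⟨x, y, d⟩
  cases d <;> simp [Cell.nb, Cell.p, Cell.q]

theorem nb_a_xy (c : Cell) : (c.nb .a).x = c.x ∧ (c.nb .a).y = c.y := by
  rcases c with ⟨x, y, d⟩
  cases d <;> simp [Cell.nb]

theorem nb_b_xy (c : Cell) : (c.nb .b).x = c.x ∧ (c.nb .b).y = c.y := by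
  rcases c with ⟨x, y, d⟩
  cases d <;> simp [Cell.nb]

/-- key of the image triangle -/
def K (φ : V → V) (c : Cell) : V × V := (φ c.o, φ c.p + φ c.q)

/-- key of the image edge -/
def eps (φ : V → V) (c : Cell) : Ed → V
  | .g => φ c.p + φ c.q
  | .a => φ c.o + φ c.p
  | .b => φ c.o + φ c.q

theorem eps_nb (φ : V → V) (c : Cell) (e : Ed) : eps φ (c.nb e) e.rev = eps φ c e := by
  cases e
  · simp [eps, Ed.rev, nb_g_p, nb_g_q, add_comm]
  · simp [eps, Ed.rev, nb_a_o, nb_a_q]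
  · simp [eps, Ed.rev, nb_b_o, nb_b_p]

def White (φ : V → V) (c : Cell) : Prop :=
  (φ c.q).1 - (φ c.o).1 = (φ c.o).2 - (φ c.p).2 ∧ (φ c.q).2 - (φ c.o).2 = (φ c.p).1 - (φ c.o).1

def Black (φ : V → V) (c : Cell) : Prop :=
  (φ c.q).1 - (φ c.o).1 = (φ c.p).2 - (φ c.o).2 ∧ (φ c.q).2 - (φ c.o).2 = (φ c.o).1 - (φ c.p).1

def Good (φ : V → V) (c : Cell) : Prop :=
  (φ c.o).1 % 2 = 1 ∧ (φ c.o).2 % 2 = 1 ∧
  ((φ c.p).1 = (φ c.o).1 + 1 ∨ (φ c.p).1 = (φ c.o).1 - 1) ∧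
  ((φ c.p).2 = (φ c.o).2 + 1 ∨ (φ c.p).2 = (φ c.o).2 - 1) ∧ (White φ c ∨ Black φ c)

def side (φ : V → V) (c : Cell) : Ed → Prop
  | .g => 2 * ((φ c.o).1 + (φ c.o).2) < (φ c.p).1 + (φ c.q).1 + ((φ c.p).2 + (φ c.q).2)
  | .a => (φ c.p).1 = (φ c.q).1
  | .b => (φ c.p).1 = (φ c.q).1

theorem Good.pq {φ : V → V} {c : Cell} (hc : Good φ c) :
    ((φ c.q).1 = (φ c.o).1 + 1 ∨ (φ c.q).1 = (φ c.o).1 - 1) ∧
    ((φ c.q).2 = (φ c.o).2 + 1 ∨ (φ c.q).2 = (φ c.o).2 - 1) ∧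
    (((φ c.p).1 = (φ c.q).1 ∧ (φ c.p).2 + (φ c.q).2 = 2 * (φ c.o).2) ∨
      ((φ c.p).2 = (φ c.q).2 ∧ (φ c.p).1 + (φ c.q).1 = 2 * (φ c.o).1 ∧ (φ c.p).1 ≠ (φ c.q).1)) := by
  unfold Good White Black at hc
  omega

theorem aux_diag {a u b v : ℤ} (ha : a % 2 = 1) (hb : b % 2 = 1) (hu : u = a + 1 ∨ u = a - 1)
    (hv : v = b + 1 ∨ v = b - 1) (h : a + u = b + v) : a = b ∧ u = v := by omega

theorem K_det {φ ψ : V → V} {c b : Cell} {e e' : Ed} (hc : Good φ c) (hb : Good ψ b)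
    (he : eps φ c e = eps ψ b e') (hs : side φ c e ↔ side ψ b e') : K φ c = K ψ b := by
  obtain ⟨c1, c2, c3⟩ := hc.pq
  obtain ⟨b1, b2, b3⟩ := hb.pq
  obtain ⟨c4, c5, c6, c7, -⟩ := hc
  obtain ⟨b4, b5, b6, b7, -⟩ := hb
  unfold K
  cases e <;> cases e' <;>
    simp only [eps, side, Prod.ext_iff, Prod.fst_add, Prod.snd_add] at he hs ⊢
  · rcases c3 with c3 | c3 <;> rcases b3 with b3 | b3 <;> omega
  · exfalso; omega
  · exfalso; omega
  · exfalso; omega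
  · have x1 := aux_diag c4 b4 c6 b6 he.1
    have x2 := aux_diag c5 b5 c7 b7 he.2
    clear c1 c2 b1 b2 c6 c7 b6 b7; omega
  · have x1 := aux_diag c4 b4 c6 b1 he.1
    have x2 := aux_diag c5 b5 c7 b2 he.2
    clear c1 c2 b1 b2 c6 c7 b6 b7; omega
  · exfalso; omega
  · have x1 := aux_diag c4 b4 c1 b6 he.1
    have x2 := aux_diag c5 b5 c2 b7 he.2
    clear c1 c2 b1 b2 c6 c7 b6 b7; omega
  · have x1 := aux_diag c4 b4 c1 b1 he.1
    have x2 := aux_diag c5 b5 c2 b2 he.2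
    clear c1 c2 b1 b2 c6 c7 b6 b7; omega

theorem K_two {φ : V → V} {c c' b : Cell} {e e' e'' : Ed} (hc : Good φ c) (hc' : Good φ c')
    (hb : Good φ b) (h1 : eps φ c e = eps φ c' e') (h2 : eps φ c e = eps φ b e'')
    (hne : K φ c ≠ K φ c') : K φ b = K φ c ∨ K φ b = K φ c' := by
  by_cases s1 : side φ c e <;> by_cases s2 : side φ c' e' <;> by_cases s3 : side φ b e''
  all_goals first
    | exact absurd (K_det hc hc' h1 (by tauto)) hne
    | exact Or.inl (K_det hb hc h2.symm (by tauto))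
    | exact Or.inr (K_det hb hc' (h2.symm.trans h1) (by tauto))

theorem eps_inj {φ : V → V} {c : Cell} {e e' : Ed} (hc : Good φ c)
    (he : eps φ c e = eps φ c e') : e = e' := by
  unfold Good White Black at hc
  cases e <;> cases e' <;> first
    | rfl
    | (exfalso; simp only [eps, Prod.ext_iff, Prod.fst_add, Prod.snd_add] at he; omega)

structure Valid {H : Type} [LinearOrder H] (R : Cell → Prop) (φ : V → V) (h : Cell → H) :
    Prop where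
  good : ∀ c, R c → Good φ c
  inj : ∀ c b, R c → R b → K φ c = K φ b → h c = h b → c = b
  taco : ∀ c e b e', R c → R (c.nb e) → R b → R (b.nb e') → eps φ c e = eps φ b e' →
    K φ (c.nb e) = K φ c → K φ b = K φ c → h c < h b → h b < h (c.nb e) →
    K φ (b.nb e') = K φ c ∧ h c < h (b.nb e') ∧ h (b.nb e') < h (c.nb e)
  tort : ∀ c e b e', R c → R (c.nb e) → R b → R (b.nb e') → eps φ c e = eps φ b e' →
    K φ (c.nb e) ≠ K φ c → K φ b = K φ c → K φ (b.nb e') = K φ (c.nb e) → h c < h b →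
    h (c.nb e) < h (b.nb e')

variable {H : Type} [LinearOrder H] {R : Cell → Prop} {φ : V → V} {h : Cell → H}

theorem Valid.taco' (hv : Valid R φ h) (c e b e') (h1 : R c) (h2 : R (c.nb e)) (h3 : R b)
    (h4 : R (b.nb e')) (he : eps φ c e = eps φ b e') (k1 : K φ (c.nb e) = K φ c)
    (k2 : K φ b = K φ c) (l1 : h (c.nb e) < h b) (l2 : h b < h c) :
    K φ (b.nb e') = K φ c ∧ h (c.nb e) < h (b.nb e') ∧ h (b.nb e') < h c := by
  have := hv.taco (c.nb e) e.rev b e' h2 (by rwa [nb_nb]) h3 h4 (by rwa [eps_nb])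
    (by rw [nb_nb, k1]) (by rw [k2, k1]) l1 (by rwa [nb_nb])
  rw [nb_nb, k1] at this
  exact this

theorem Valid.dual (hv : Valid R φ h) : Valid R φ (fun c => OrderDual.toDual (h c)) where
  good := hv.good
  inj := fun c b h1 h2 k hh => hv.inj c b h1 h2 k (by simpa using hh)
  taco := by
    intro c e b e' h1 h2 h3 h4 he k1 k2 l1 l2
    have := hv.taco' c e b e' h1 h2 h3 h4 he k1 k2 (by simpa using l2) (by simpa using l1)
    exact ⟨this.1, by simpa using this.2.2, by simpa using this.2.1⟩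
  tort := by
    intro c e b e' h1 h2 h3 h4 he k1 k2 k3 l1
    have := hv.tort b e' c e h3 h4 h1 h2 he.symm (by rw [k3, k2]; exact k1) k2.symm k3.symm
      (by simpa using l1)
    simpa using this

/-- transport along a paper automorphism, an image symmetry and a monotone height change -/
theorem Valid.pull {H' : Type} [LinearOrder H'] {R' : Cell → Prop} {φ' : V → V} {h' : Cell → H'}
    (hv : Valid R φ h) (τ : Cell → Cell) (σ : Ed → Ed) (hnb : ∀ c e, τ (c.nb e) = (τ c).nb (σ e))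
    (hτ : ∀ c b, τ c = τ b → c = b) (hR : ∀ c, R' c → R (τ c)) (hg : ∀ c, R' c → Good φ' c)
    (hK : ∀ c b, R' c → R' b → (K φ' c = K φ' b ↔ K φ (τ c) = K φ (τ b)))
    (hE : ∀ c e b e', R' c → R' b → eps φ' c e = eps φ' b e' →
      eps φ (τ c) (σ e) = eps φ (τ b) (σ e'))
    (hh : ∀ c b, R' c → R' b → K φ' c = K φ' b → (h' c < h' b ↔ h (τ c) < h (τ b))) :
    Valid R' φ' h' where
  good := hg
  inj := by
    intro c b h1 h2 k e
    apply hτ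
    apply hv.inj _ _ (hR c h1) (hR b h2) ((hK c b h1 h2).1 k)
    have a1 := hh c b h1 h2 k
    have a2 := hh b c h2 h1 k.symm
    rw [e] at a1 a2
    simp only [lt_self_iff_false, false_iff, not_lt] at a1 a2
    exact le_antisymm a2 a1
  taco := by
    intro c e b e' h1 h2 h3 h4 he k1 k2 l1 l2
    have := hv.taco (τ c) (σ e) (τ b) (σ e') (hR c h1) (hnb c e ▸ hR _ h2) (hR b h3)
      (hnb b e' ▸ hR _ h4) (hE c e b e' h1 h3 he) (hnb c e ▸ (hK _ _ h2 h1).1 k1)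
      ((hK _ _ h3 h1).1 k2) ((hh _ _ h1 h3 k2.symm).1 l1)
      (hnb c e ▸ (hh _ _ h3 h2 (k2.trans k1.symm)).1 l2)
    rw [← hnb, ← hnb] at this
    have k3 := (hK _ _ h4 h1).2 this.1
    exact ⟨k3, (hh _ _ h1 h4 k3.symm).2 this.2.1, (hh _ _ h4 h2 (k3.trans k1.symm)).2 this.2.2⟩
  tort := by
    intro c e b e' h1 h2 h3 h4 he k1 k2 k3 l1
    have := hv.tort (τ c) (σ e) (τ b) (σ e') (hR c h1) (hnb c e ▸ hR _ h2) (hR b h3)
      (hnb b e' ▸ hR _ h4) (hE c e b e' h1 h3 he)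
      (hnb c e ▸ fun k => k1 ((hK _ _ h2 h1).2 k))
      ((hK _ _ h3 h1).1 k2) (hnb c e ▸ hnb b e' ▸ (hK _ _ h4 h2).1 k3)
      ((hh _ _ h1 h3 k2.symm).1 l1)
    rw [← hnb, ← hnb] at this
    exact (hh _ _ h2 h4 k3.symm).2 this

end Pool.Agent.MP_3b5bbf_co
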