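import Mathlib

/-! Flat folded states of the unit square with a finite crease pattern. The plane is `ℂ`. -/

namespace Pool.Agent.MP_3b5bbf_co

open Set

/-- the closed square `[0, c]²` -/
def square (c : ℝ) : Set ℂ := {z | 0 ≤ z.re ∧ z.re ≤ c ∧ 0 ≤ z.im ∧ z.im ≤ c}

/-- twice the signed area of the triangle `a b c`, positive when it is counterclockwise -/
def cross (a b c : ℂ) : ℝ := (b - a).re * (c - a).im - (b - a).im * (c - a).re

/-- the closed triangle with vertices `w 0`, `w 1`, `w 2` -/
def tri (w : Fin 3 → ℂ) : Set ℂ := convexHull ℝ (range w)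

/-- A flat folded state of the unit square. The sheet is triangulated by the triangles
`tri (v i)`; the folding map `f` is an isometry on each of them; two image triangles coincide or
meet in a common side or vertex; the triangles with the same image are linearly ordered by
`above`; and along every side the layers do not cross. -/
structure FlatFolding : Type where
  /-- number of triangles -/
  n : ℕ
  /-- vertices of the triangles, counterclockwise -/
  v : Fin n → Fin 3 → ℂ
  /-- the folding map -/
  f : ℂ → ℂ
  /-- `above i j`: triangle `i` lies above triangle `j` -/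
  above : Fin n → Fin n → Prop
  ccw : ∀ i, 0 < cross (v i 0) (v i 1) (v i 2)
  cover : ⋃ i, tri (v i) = square 1
  distinct : ∀ i j, range (v i) = range (v j) → i = j
  meet : ∀ i j, tri (v i) ∩ tri (v j) ⊆ convexHull ℝ (range (v i) ∩ range (v j))
  isom : ∀ i, ∀ z ∈ tri (v i), ∀ w ∈ tri (v i), dist (f z) (f w) = dist z w
  image_meet : ∀ i j, f '' tri (v i) ∩ f '' tri (v j) ⊆
    convexHull ℝ (f '' range (v i) ∩ f '' range (v j))
  irrefl : ∀ i, ¬ above i i
  trans : ∀ i j l, f '' tri (v i) = f '' tri (v j) → f '' tri (v j) = f '' tri (v l) →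
    above i j → above j l → above i l
  total : ∀ i j, i ≠ j → f '' tri (v i) = f '' tri (v j) → above i j ∨ above j i
  /-- If `i`, `i'` are folded onto each other along their common side `a b`, a triangle `j` lying
  between them, whose side `c d` over the same segment is shared with `j'`, is folded back there
  and `j'` lies between `i` and `i'` too. -/
  taco : ∀ i i' j j' a b c d, i ≠ i' → j ≠ j' → a ≠ b →
    a ∈ range (v i) ∩ range (v i') → b ∈ range (v i) ∩ range (v i') →
    c ∈ range (v j) ∩ range (v j') → d ∈ range (v j) ∩ range (v j') → f c = f a → f d = f b →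
    f '' tri (v i') = f '' tri (v i) → f '' tri (v j) = f '' tri (v i) →
    above j i → above i' j →
    f '' tri (v j') = f '' tri (v i) ∧ above j' i ∧ above i' j'
  /-- Two layers that both continue flat across the same segment keep their order. -/
  tortilla : ∀ i i' j j' a b c d, i ≠ i' → j ≠ j' → a ≠ b →
    a ∈ range (v i) ∩ range (v i') → b ∈ range (v i) ∩ range (v i') →
    c ∈ range (v j) ∩ range (v j') → d ∈ range (v j) ∩ range (v j') → f c = f a → f d = f b →
    f '' tri (v i') ≠ f '' tri (v i) → f '' tri (v j) = f '' tri (v i) →
    f '' tri (v j') = f '' tri (v i') → above j i → above j' i'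

/-- triangle `i` shows the white side upwards: `f` keeps its orientation -/
def FlatFolding.WhiteUp (F : FlatFolding) (i : Fin F.n) : Prop :=
  0 < cross (F.f (F.v i 0)) (F.f (F.v i 1)) (F.f (F.v i 2))

/-- triangle `i` is the top layer over its image -/
def FlatFolding.IsTop (F : FlatFolding) (i : Fin F.n) : Prop :=
  ∀ j, F.f '' tri (F.v j) = F.f '' tri (F.v i) → ¬ F.above j i

/-- The image is the square `[0, c]²`, and every top layer triangle that meets the open cell
`(a, b)` of the `k × k` grid is white if `a + b` is even and black if `a + b` is odd. -/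
def FlatFolding.Checkerboard (F : FlatFolding) (k : ℕ) (c : ℝ) : Prop :=
  F.f '' square 1 = square c ∧
  ∀ i, F.IsTop i → ∀ a b : ℕ, ∀ z ∈ F.f '' tri (F.v i),
    a * (c / k) < z.re → z.re < (a + 1) * (c / k) → b * (c / k) < z.im → z.im < (b + 1) * (c / k) →
    (F.WhiteUp i ↔ Even (a + b))

end Pool.Agent.MP_3b5bbf_co
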