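import Pool.Agent.MP_3b5bbf_co.Cells

/-! Abstract operations preserving validity: simple folds and nesting. -/

namespace Pool.Agent.MP_3b5bbf_co

variable {H : Type} [LinearOrder H] {R : Cell → Prop} {φ : V → V} {h : Cell → H}

/-- a cell whose partner lies on the other side cannot be enclosed by a taco -/
theorem Valid.same_side (hv : Valid R φ h) {b e' c e} (h3 : R b) (h4 : R (b.nb e')) (h1 : R c)
    (h2 : R (c.nb e)) (he : eps φ c e = eps φ b e') (k1 : K φ (b.nb e') = K φ b)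
    (k2 : K φ c = K φ b) (k3 : K φ (c.nb e) ≠ K φ c) (l : h c < h b) : h c < h (b.nb e') := by
  rcases lt_trichotomy (h c) (h (b.nb e')) with l1 | l1 | l1
  · exact l1
  · exfalso
    have hc : c = b.nb e' := hv.inj _ _ h1 h4 (k2.trans k1.symm) l1
    have : e = e'.rev := by
      apply eps_inj (hv.good c h1)
      rw [he, hc, eps_nb]
    apply k3
    rw [this, hc, nb_nb, k1]
  · exfalso
    have := hv.taco' b e' c e h3 h4 h1 h2 he.symm k1 k2 l1 l
    exact k3 (this.1.trans k2.symm)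

theorem Valid.fold {H' : Type} [LinearOrder H'] {φ' : V → V} {h' : Cell → H'}
    (hv : Valid R φ h) (N : V × V → Prop) (ρK : V × V → V × V) (ρE : V → V)
    (iK : ∀ a b, ρK a = ρK b → a = b) (iE : ∀ a b, ρE a = ρE b → a = b)
    (hg : ∀ c, R c → Good φ' c)
    (nK : ∀ c, R c → N (K φ c) → K φ' c = K φ c)
    (nE : ∀ c e, R c → N (K φ c) → eps φ' c e = eps φ c e)
    (fK : ∀ c, R c → ¬ N (K φ c) → K φ' c = ρK (K φ c))
    (fE : ∀ c e, R c → ¬ N (K φ c) → eps φ' c e = ρE (eps φ c e))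
    (cr : ∀ c e, R c → R (c.nb e) → N (K φ c) → ¬ N (K φ (c.nb e)) →
      ρK (K φ (c.nb e)) = K φ c)
    (nn : ∀ c b, R c → R b → N (K φ c) → N (K φ b) → (h' c < h' b ↔ h c < h b))
    (ff : ∀ c b, R c → R b → ¬ N (K φ c) → ¬ N (K φ b) → (h' c < h' b ↔ h b < h c))
    (nf : ∀ c b, R c → R b → N (K φ c) → ¬ N (K φ b) → h' c < h' b) :
    Valid R φ' h' where
  good := hg
  inj := by
    intro c b h1 h2 k e
    by_cases n1 : N (K φ c) <;> by_cases n2 : N (K φ b)
    · rw [nK c h1 n1, nK b h2 n2] at k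
      apply hv.inj c b h1 h2 k
      have a1 := nn c b h1 h2 n1 n2
      have a2 := nn b c h2 h1 n2 n1
      rw [e] at a1 a2
      simp only [lt_self_iff_false, false_iff, not_lt] at a1 a2
      exact le_antisymm a2 a1
    · exact absurd e (nf c b h1 h2 n1 n2).ne
    · exact absurd e (nf b c h2 h1 n2 n1).ne'
    · rw [fK c h1 n1, fK b h2 n2] at k
      apply hv.inj c b h1 h2 (iK _ _ k)
      have a1 := ff c b h1 h2 n1 n2
      have a2 := ff b c h2 h1 n2 n1
      rw [e] at a1 a2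
      simp only [lt_self_iff_false, false_iff, not_lt] at a1 a2
      exact le_antisymm a1 a2
  taco := by
    intro c e b e' h1 h2 h3 h4 he k1 k2 l1 l2
    by_cases n1 : N (K φ c) <;> by_cases n2 : N (K φ (c.nb e))
    · have n3 : N (K φ b) := by
        by_contra n3
        exact absurd l2 (nf _ _ h2 h3 n2 n3).not_gt
      rw [nE _ _ h1 n1, nE _ _ h3 n3] at he
      rw [nK _ h2 n2, nK _ h1 n1] at k1
      rw [nK _ h3 n3, nK _ h1 n1] at k2
      have := hv.taco c e b e' h1 h2 h3 h4 he k1 k2 ((nn _ _ h1 h3 n1 n3).1 l1)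
        ((nn _ _ h3 h2 n3 n2).1 l2)
      have n4 : N (K φ (b.nb e')) := by rw [this.1]; exact n1
      exact ⟨by rw [nK _ h4 n4, nK _ h1 n1, this.1], (nn _ _ h1 h4 n1 n4).2 this.2.1,
        (nn _ _ h4 h2 n4 n2).2 this.2.2⟩
    · have kk : K φ (c.nb e) ≠ K φ c := fun k => n2 (k ▸ n1)
      have hc := cr c e h1 h2 n1 n2
      have e0 : ρE (eps φ c e) = eps φ c e := by
        have a1 := fE _ e.rev h2 n2
        rw [eps_nb, eps_nb, nE _ _ h1 n1] at a1
        exact a1.symm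
      by_cases n3 : N (K φ b)
      · rw [nE _ _ h1 n1, nE _ _ h3 n3] at he
        rw [nK _ h3 n3, nK _ h1 n1] at k2
        have l1' := (nn _ _ h1 h3 n1 n3).1 l1
        rcases K_two (hv.good _ h1) (hv.good _ h2) (hv.good _ h4) (eps_nb φ c e).symm
          (he.trans (eps_nb φ b e').symm) kk.symm with k4 | k4
        · have n4 : N (K φ (b.nb e')) := by rw [k4]; exact n1
          have := hv.same_side h3 h4 h1 h2 he (k4.trans k2.symm) k2.symm kk l1'
          exact ⟨by rw [nK _ h4 n4, nK _ h1 n1, k4], (nn _ _ h1 h4 n1 n4).2 this,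
            nf _ _ h4 h2 n4 n2⟩
        · have n4 : ¬ N (K φ (b.nb e')) := by rw [k4]; exact n2
          have := hv.tort c e b e' h1 h2 h3 h4 he kk k2 k4 l1'
          exact ⟨by rw [fK _ h4 n4, nK _ h1 n1, k4, hc], nf _ _ h1 h4 n1 n4,
            (ff _ _ h4 h2 n4 n2).2 this⟩
      · rw [nE _ _ h1 n1, fE _ _ h3 n3, ← e0] at he
        have he' := iE _ _ he
        rw [fK _ h3 n3, nK _ h1 n1, ← hc] at k2
        have k2' := iK _ _ k2
        have l2' := (ff _ _ h3 h2 n3 n2).1 l2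
        rcases K_two (hv.good _ h1) (hv.good _ h2) (hv.good _ h4) (eps_nb φ c e).symm
          (he'.trans (eps_nb φ b e').symm) kk.symm with k4 | k4
        · have n4 : N (K φ (b.nb e')) := by rw [k4]; exact n1
          have := hv.tort (c.nb e) e.rev b e' h2 (by rwa [nb_nb]) h3 h4 (by rwa [eps_nb])
            (by rw [nb_nb]; exact kk.symm) k2' (by rw [nb_nb]; exact k4) l2'
          rw [nb_nb] at this
          exact ⟨by rw [nK _ h4 n4, nK _ h1 n1, k4], (nn _ _ h1 h4 n1 n4).2 this,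
            nf _ _ h4 h2 n4 n2⟩
        · have n4 : ¬ N (K φ (b.nb e')) := by rw [k4]; exact n2
          have := hv.same_side (c := c.nb e) (e := e.rev) h3 h4 h2 (by rwa [nb_nb])
            (by rwa [eps_nb]) (k4.trans k2'.symm) k2'.symm (by rw [nb_nb]; exact kk.symm) l2'
          exact ⟨by rw [fK _ h4 n4, nK _ h1 n1, k4, hc], nf _ _ h1 h4 n1 n4,
            (ff _ _ h4 h2 n4 n2).2 this⟩
    · exact absurd (l1.trans l2) (nf _ _ h2 h1 n2 n1).not_gt
    · have n3 : ¬ N (K φ b) := by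
        intro n3
        exact absurd l1 (nf _ _ h3 h1 n3 n1).not_gt
      rw [fE _ _ h1 n1, fE _ _ h3 n3] at he
      rw [fK _ h2 n2, fK _ h1 n1] at k1
      rw [fK _ h3 n3, fK _ h1 n1] at k2
      have := hv.taco' c e b e' h1 h2 h3 h4 (iE _ _ he) (iK _ _ k1) (iK _ _ k2)
        ((ff _ _ h3 h2 n3 n2).1 l2) ((ff _ _ h1 h3 n1 n3).1 l1)
      have n4 : ¬ N (K φ (b.nb e')) := by rw [this.1]; exact n1
      exact ⟨by rw [fK _ h4 n4, fK _ h1 n1, this.1], (ff _ _ h1 h4 n1 n4).2 this.2.2,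
        (ff _ _ h4 h2 n4 n2).2 this.2.1⟩
  tort := by
    intro c e b e' h1 h2 h3 h4 he k1 k2 k3 l1
    have key : ∀ c e, R c → R (c.nb e) → K φ' (c.nb e) ≠ K φ' c →
        (N (K φ c) ↔ N (K φ (c.nb e))) := by
      intro c e h1 h2 k1
      constructor
      · intro n1
        by_contra n2
        exact k1 (by rw [fK _ h2 n2, nK _ h1 n1, cr c e h1 h2 n1 n2])
      · intro n2
        by_contra n1
        have := cr (c.nb e) e.rev h2 (by rwa [nb_nb]) n2 (by rwa [nb_nb])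
        rw [nb_nb] at this
        exact k1 (by rw [fK _ h1 n1, nK _ h2 n2, this])
    have q1 := key c e h1 h2 k1
    have q2 := key b e' h3 h4 (by rw [k2, k3]; exact k1)
    by_cases n1 : N (K φ c) <;> by_cases n3 : N (K φ b)
    · have n2 := q1.1 n1
      have n4 := q2.1 n3
      rw [nE _ _ h1 n1, nE _ _ h3 n3] at he
      rw [nK _ h2 n2, nK _ h1 n1] at k1
      rw [nK _ h3 n3, nK _ h1 n1] at k2
      rw [nK _ h4 n4, nK _ h2 n2] at k3
      exact (nn _ _ h2 h4 n2 n4).2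
        (hv.tort c e b e' h1 h2 h3 h4 he k1 k2 k3 ((nn _ _ h1 h3 n1 n3).1 l1))
    · exact nf _ _ h2 h4 (q1.1 n1) (fun n => n3 (q2.2 n))
    · exact absurd l1 (nf _ _ h3 h1 n3 n1).not_gt
    · have n2 : ¬ N (K φ (c.nb e)) := fun n => n1 (q1.2 n)
      have n4 : ¬ N (K φ (b.nb e')) := fun n => n3 (q2.2 n)
      rw [fE _ _ h1 n1, fE _ _ h3 n3] at he
      rw [fK _ h2 n2, fK _ h1 n1] at k1
      rw [fK _ h3 n3, fK _ h1 n1] at k2
      rw [fK _ h4 n4, fK _ h2 n2] at k3
      have k1' : K φ (c.nb e) ≠ K φ c := fun k => k1 (by rw [k])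
      have k2' := iK _ _ k2
      have k3' := iK _ _ k3
      exact (ff _ _ h2 h4 n2 n4).2 (hv.tort b e' c e h3 h4 h1 h2 (iE _ _ he).symm
        (by rw [k3', k2']; exact k1') k2'.symm k3'.symm ((ff _ _ h1 h3 n1 n3).1 l1))

/-- key of the port quarter -/
def KP : V × V := ((1, 1), (2, 0))
/-- key of the quarter at the open side -/
def KO : V × V := ((1, 1), (4, 2))
/-- key of the quarter at the closed side -/
def KC : V × V := ((1, 1), (0, 2))
/-- key of the far quarter -/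
def KF : V × V := ((1, 1), (2, 4))

/-- boundary cells of a region -/
def Bd (R : Cell → Prop) (c : Cell) : Prop := R c ∧ ¬ R (c.nb .g)

/-- no taco at the port encloses a boundary cell -/
def Closed (R : Cell → Prop) (φ : V → V) (h : Cell → H) : Prop :=
  ∀ c e b, R c → R (c.nb e) → Bd R b → eps φ c e = (2, 0) → K φ c = KP → K φ (c.nb e) = KP →
    h c < h b → h b < h (c.nb e) → False

theorem port_two {c : Cell} {e : Ed} (hc : Good φ c) (he : eps φ c e = (2, 0)) :
    K φ c = KP ∨ φ c.o = (1, -1) := by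
  obtain ⟨c1, c2, c3⟩ := hc.pq
  obtain ⟨c4, c5, c6, c7, -⟩ := hc
  cases e <;> simp only [eps, K, KP, Prod.ext_iff, Prod.fst_add, Prod.snd_add] at he ⊢ <;> omega

theorem Closed.same (hv : Valid R φ h) (hB : Closed R φ h) {b e' β} (h3 : R b)
    (h4 : R (b.nb e')) (hβ : Bd R β) (kβ : K φ β = KP) (he : eps φ b e' = (2, 0))
    (k1 : K φ b = KP) (k2 : K φ (b.nb e') = KP) :
    (h β < h b → h β < h (b.nb e')) ∧ (h b < h β → h (b.nb e') < h β) := by
  have ne : h β ≠ h (b.nb e') := by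
    intro l
    have hc : β = b.nb e' := hv.inj _ _ hβ.1 h4 (kβ.trans k2.symm) l
    have : e'.rev = .g := by
      apply eps_inj (hv.good _ h4)
      rw [eps_nb, he, ← hc]
      have := congrArg Prod.snd kβ
      exact this.symm
    apply hβ.2
    rw [hc, ← this, nb_nb]
    exact h3
  constructor
  · intro l
    rcases lt_or_gt_of_ne ne with l1 | l1
    · exact l1
    · exact (hB (b.nb e') e'.rev β h4 (by rwa [nb_nb]) hβ (by rwa [eps_nb]) k2
        (by rwa [nb_nb]) l1 (by rwa [nb_nb])).elim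
  · intro l
    rcases lt_or_gt_of_ne ne with l1 | l1
    · exact (hB b e' β h3 h4 hβ he k1 k2 l l1).elim
    · exact l1

theorem nest_valid {R1 R2 : Cell → Prop} (V1 : Valid R1 φ h) (V2 : Valid R2 φ h) {lo hi : H}
    (hR : ∀ c, R c ↔ R1 c ∨ R2 c)
    (dj : ∀ c, R1 c → R2 c → False)
    (in2 : ∀ c, R2 c → lo < h c ∧ h c < hi)
    (H1 : ∀ c b, R1 c → R2 b → φ c.o = φ b.o → φ c.o = (1, 1))
    (p1 : ∀ c, R1 c → φ c.o = (1, 1) → h c ≤ lo ∨ hi ≤ h c)
    (p2 : ∀ c e, R1 c → R1 (c.nb e) → (K φ c = KP ∨ K φ c = KO) →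
      (K φ (c.nb e) = KP ∨ K φ (c.nb e) = KO) → h c ≤ lo → h (c.nb e) ≤ lo)
    (T : ∀ c, R2 c → φ c.o = (1, 1) → K φ c = KP ∨ K φ c = KO)
    (X : ∀ c e, R1 c → R2 (c.nb e) → e = .g)
    (K1 : ∀ c, Bd R1 c → K φ c = KP) (K2 : ∀ c, Bd R2 c → K φ c = KP)
    (B1 : Closed R1 φ h) (B2 : Closed R2 φ h)
    (S : ∀ c, R c → φ c.o ≠ (1, -1))
    (CO : ∀ c b, R1 c → R2 (c.nb .g) → (Bd R1 b ∨ Bd R2 b) →
      ((h c < h b ∧ h b < h (c.nb .g)) ∨ (h (c.nb .g) < h b ∧ h b < h c)) → R (b.nb .g) ∧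
      ((h c < h (b.nb .g) ∧ h (b.nb .g) < h (c.nb .g)) ∨
        (h (c.nb .g) < h (b.nb .g) ∧ h (b.nb .g) < h c))) :
    Valid R φ h ∧ Closed R φ h := by
  have gd : ∀ c, R c → Good φ c := fun c hc =>
    ((hR c).1 hc).elim (V1.good c) (V2.good c)
  have X' : ∀ c e, R2 c → R1 (c.nb e) → e = .g := by
    intro c e h1 h2
    have := X (c.nb e) e.rev h2 (by rwa [nb_nb])
    cases e <;> simp_all [Ed.rev]
  have cr1 : ∀ c e, R1 c → R2 (c.nb e) → e = .g ∧ Bd R1 c ∧ Bd R2 (c.nb e) := by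
    intro c e h1 h2
    have := X c e h1 h2
    subst this
    exact ⟨rfl, ⟨h1, fun h3 => dj _ h3 h2⟩, h2, fun h3 => dj _ h1 (by
      have := nb_nb c .g
      simp only [Ed.rev] at this
      rwa [this] at h3)⟩
  have cr2 : ∀ c e, R2 c → R1 (c.nb e) → e = .g ∧ Bd R2 c ∧ Bd R1 (c.nb e) := by
    intro c e h1 h2
    have := X' c e h1 h2
    subst this
    exact ⟨rfl, ⟨h1, fun h3 => dj _ h2 h3⟩, h2, fun h3 => dj _ (by
      have := nb_nb c .g
      simp only [Ed.rev] at this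
      rwa [this] at h3) h1⟩
  have mix : ∀ c b, R1 c → R2 b → K φ c = K φ b →
      (K φ c = KP ∨ K φ c = KO) ∧ (h c ≤ lo ∨ hi ≤ h c) := by
    intro c b h1 h2 k
    have k' : φ c.o = φ b.o := congrArg Prod.fst k
    have := H1 c b h1 h2 k'
    exact ⟨k ▸ T b h2 (k' ▸ this), p1 c h1 this⟩
  have epsP : ∀ c, K φ c = KP → eps φ c .g = (2, 0) := fun c k => congrArg Prod.snd k
  -- tacos inside R1 enclose no cell of R2
  have t12 : ∀ c e b, R1 c → R1 (c.nb e) → R2 b → K φ (c.nb e) = K φ c → K φ b = K φ c →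
      h c < h b → h b < h (c.nb e) → False := by
    intro c e b h1 h2 h3 k1 k2 l1 l2
    obtain ⟨m1, m2⟩ := mix c b h1 h3 k2.symm
    have i := in2 b h3
    have a1 : h c ≤ lo := m2.resolve_right (by order)
    have := p2 c e h1 h2 m1 (k1 ▸ m1) a1
    order
  have t21 : ∀ c c' b, R2 c → R2 c' → R1 b → K φ b = K φ c →
      h c < h b → h b < h c' → False := by
    intro c c' b h1 h2 h3 k2 l1 l2
    obtain ⟨-, m2⟩ := mix b c h3 h1 k2
    have i := in2 c h1
    have i' := in2 c' h2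
    rcases m2 with m | m <;> order
  -- the crossing tacos
  have tc : ∀ c b e', R1 c → R2 (c.nb .g) → R b → (R (b.nb e') ∨ (e' = .g ∧ Bd R b)) →
      eps φ b e' = (2, 0) → K φ b = KP →
      ((h c < h b ∧ h b < h (c.nb .g)) ∨ (h (c.nb .g) < h b ∧ h b < h c)) →
      R (b.nb e') ∧ K φ (b.nb e') = KP ∧ ((h c < h (b.nb e') ∧ h (b.nb e') < h (c.nb .g)) ∨
        (h (c.nb .g) < h (b.nb e') ∧ h (b.nb e') < h c)) := by
    intro c b e' h1 h2 h3 h4 he k l
    obtain ⟨-, b1, b2⟩ := cr1 c .g h1 h2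
    have i2 := in2 _ h2
    have pc : h c ≤ lo ∨ hi ≤ h c := p1 c h1 (congrArg Prod.fst (K1 c b1))
    have kk : R (b.nb e') → K φ (b.nb e') = KP := fun h4 =>
      (port_two (gd _ h4) (by rw [eps_nb, he])).resolve_right (S _ h4)
    have bdcase : e' = .g → (Bd R1 b ∨ Bd R2 b) → R (b.nb e') ∧ K φ (b.nb e') = KP ∧
        ((h c < h (b.nb e') ∧ h (b.nb e') < h (c.nb .g)) ∨
        (h (c.nb .g) < h (b.nb e') ∧ h (b.nb e') < h c)) := by
      intro e1 bb
      subst e1
      have := CO c b h1 h2 bb l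
      exact ⟨this.1, kk this.1, this.2⟩
    rcases h4 with h4 | ⟨e1, h4⟩
    · rcases (hR _).1 h3 with r3 | r3 <;> rcases (hR _).1 h4 with r4 | r4
      · refine ⟨h4, kk h4, ?_⟩
        have s1 := B1.same V1 r3 r4 b1 (K1 _ b1) he k (kk h4)
        have q1 := p2 b e' r3 r4 (Or.inl k) (Or.inl (kk h4))
        have q2 := p2 (b.nb e') e'.rev r4 (by rwa [nb_nb]) (Or.inl (kk h4))
          (by rw [nb_nb]; exact Or.inl k)
        rw [nb_nb] at q2
        have q3 := p1 b r3 (congrArg Prod.fst k)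
        have q4 := p1 _ r4 (congrArg Prod.fst (kk h4))
        rcases l with l | l
        · left
          refine ⟨s1.1 l.1, ?_⟩
          have : h b ≤ lo := q3.resolve_right (by order)
          have := q1 this
          order
        · right
          refine ⟨?_, s1.2 l.2⟩
          have : ¬ h (b.nb e') ≤ lo := fun a => by have := q2 a; order
          have := q4.resolve_left this
          order
      · obtain ⟨e1, c1, -⟩ := cr1 b e' r3 r4
        exact bdcase e1 (Or.inl c1)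
      · obtain ⟨e1, c1, -⟩ := cr2 b e' r3 r4
        exact bdcase e1 (Or.inr c1)
      · refine ⟨h4, kk h4, ?_⟩
        have s1 := B2.same V2 r3 r4 b2 (K2 _ b2) he k (kk h4)
        have i3 := in2 _ r3
        have i4 := in2 _ r4
        rcases l with l | l
        · left
          refine ⟨?_, s1.2 l.2⟩
          rcases pc with a | a <;> order
        · right
          refine ⟨s1.1 l.1, ?_⟩
          rcases pc with a | a <;> order
    · apply bdcase e1
      rcases (hR _).1 h3 with r3 | r3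
      · exact Or.inl ⟨r3, fun a => h4.2 ((hR _).2 (Or.inl a))⟩
      · exact Or.inr ⟨r3, fun a => h4.2 ((hR _).2 (Or.inr a))⟩
  refine ⟨⟨gd, ?_, ?_, ?_⟩, ?_⟩
  · intro c b h1 h2 k e
    rcases (hR _).1 h1 with r1 | r1 <;> rcases (hR _).1 h2 with r2 | r2
    · exact V1.inj c b r1 r2 k e
    · have := in2 b r2
      rcases (mix c b r1 r2 k).2 with m | m <;> exfalso <;> order
    · have := in2 c r1
      rcases (mix b c r2 r1 k.symm).2 with m | m <;> exfalso <;> order
    · exact V2.inj c b r1 r2 k e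
  · intro c e b e' h1 h2 h3 h4 he k1 k2 l1 l2
    rcases (hR _).1 h1 with r1 | r1 <;> rcases (hR _).1 h2 with r2 | r2
    · rcases (hR _).1 h3 with r3 | r3
      · rcases (hR _).1 h4 with r4 | r4
        · exact V1.taco c e b e' r1 r2 r3 r4 he k1 k2 l1 l2
        · obtain ⟨e1, c1, -⟩ := cr1 b e' r3 r4
          subst e1
          have kb := K1 b c1
          exact (B1 c e b r1 r2 c1 (he.trans (epsP b kb)) (k2.symm.trans kb)
            (k1.trans (k2.symm.trans kb)) l1 l2).elim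
      · exact (t12 c e b r1 r2 r3 k1 k2 l1 l2).elim
    · obtain ⟨e1, c1, -⟩ := cr1 c e r1 r2
      subst e1
      have kc := K1 c c1
      have := tc c b e' r1 r2 h3 (Or.inl h4) (he.symm.trans (epsP c kc)) (k2.trans kc)
        (Or.inl ⟨l1, l2⟩)
      refine ⟨this.2.1.trans kc.symm, this.2.2.resolve_right ?_⟩
      intro a; order
    · obtain ⟨e1, c1, c2⟩ := cr2 c e r1 r2
      subst e1
      have kc := K2 c c1
      have nn : (c.nb .g).nb .g = c := nb_nb c .g
      have := tc (c.nb .g) b e' r2 (by rwa [nn]) h3 (Or.inl h4) (he.symm.trans (epsP c kc))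
        (k2.trans kc) (by rw [nn]; exact Or.inr ⟨l1, l2⟩)
      rw [nn] at this
      refine ⟨this.2.1.trans kc.symm, this.2.2.resolve_left ?_⟩
      intro a; order
    · rcases (hR _).1 h3 with r3 | r3
      · exact (t21 c _ b r1 r2 r3 k2 l1 l2).elim
      · rcases (hR _).1 h4 with r4 | r4
        · obtain ⟨e1, c1, -⟩ := cr2 b e' r3 r4
          subst e1
          have kb := K2 b c1
          exact (B2 c e b r1 r2 c1 (he.trans (epsP b kb)) (k2.symm.trans kb)
            (k1.trans (k2.symm.trans kb)) l1 l2).elim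
        · exact V2.taco c e b e' r1 r2 r3 r4 he k1 k2 l1 l2
  · intro c e b e' h1 h2 h3 h4 he k1 k2 k3 l1
    have nc : ∀ c e, R c → R (c.nb e) → K φ (c.nb e) ≠ K φ c →
        (R1 c ∧ R1 (c.nb e)) ∨ (R2 c ∧ R2 (c.nb e)) := by
      intro c e h1 h2 k1
      rcases (hR _).1 h1 with r1 | r1 <;> rcases (hR _).1 h2 with r2 | r2
      · exact Or.inl ⟨r1, r2⟩
      · obtain ⟨-, c1, c2⟩ := cr1 c e r1 r2
        exact absurd ((K2 _ c2).trans (K1 _ c1).symm) k1
      · obtain ⟨-, c1, c2⟩ := cr2 c e r1 r2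
        exact absurd ((K1 _ c2).trans (K2 _ c1).symm) k1
      · exact Or.inr ⟨r1, r2⟩
    rcases nc c e h1 h2 k1 with ⟨r1, r2⟩ | ⟨r1, r2⟩ <;>
      rcases nc b e' h3 h4 (by rw [k2, k3]; exact k1) with ⟨r3, r4⟩ | ⟨r3, r4⟩
    · exact V1.tort c e b e' r1 r2 r3 r4 he k1 k2 k3 l1
    · obtain ⟨m1, m2⟩ := mix c b r1 r3 k2.symm
      obtain ⟨m3, -⟩ := mix _ _ r2 r4 k3.symm
      have i3 := in2 _ r3
      have i4 := in2 _ r4
      have := p2 c e r1 r2 m1 m3 (m2.resolve_right (by order))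
      order
    · obtain ⟨m1, m2⟩ := mix b c r3 r1 k2
      obtain ⟨m3, m4⟩ := mix _ _ r4 r2 k3
      have i3 := in2 _ r1
      have i4 := in2 _ r2
      have q2 := p2 (b.nb e') e'.rev r4 (by rwa [nb_nb]) m3 (by rw [nb_nb]; exact m1)
      rw [nb_nb] at q2
      have : ¬ h (b.nb e') ≤ lo := fun a => by have := q2 a; order
      have := m4.resolve_left this
      order
    · exact V2.tort c e b e' r1 r2 r3 r4 he k1 k2 k3 l1
  · intro c e b h1 h2 hb he k1 k2 l1 l2
    have bb : Bd R1 b ∨ Bd R2 b := by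
      rcases (hR _).1 hb.1 with r3 | r3
      · exact Or.inl ⟨r3, fun a => hb.2 ((hR _).2 (Or.inl a))⟩
      · exact Or.inr ⟨r3, fun a => hb.2 ((hR _).2 (Or.inr a))⟩
    have kb : K φ b = KP := bb.elim (K1 b) (K2 b)
    rcases (hR _).1 h1 with r1 | r1 <;> rcases (hR _).1 h2 with r2 | r2
    · rcases bb with bb | bb
      · exact B1 c e b r1 r2 bb he k1 k2 l1 l2
      · exact t12 c e b r1 r2 bb.1 (k2.trans k1.symm) (kb.trans k1.symm) l1 l2
    · obtain ⟨e1, -, -⟩ := cr1 c e r1 r2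
      subst e1
      exact hb.2 (tc c b .g r1 r2 hb.1 (Or.inr ⟨rfl, hb⟩) (epsP b kb) kb (Or.inl ⟨l1, l2⟩)).1
    · obtain ⟨e1, -, -⟩ := cr2 c e r1 r2
      subst e1
      have nn : (c.nb .g).nb .g = c := nb_nb c .g
      exact hb.2 (tc (c.nb .g) b .g r2 (by rwa [nn]) hb.1 (Or.inr ⟨rfl, hb⟩) (epsP b kb) kb
        (by rw [nn]; exact Or.inr ⟨l1, l2⟩)).1
    · rcases bb with bb | bb
      · exact t21 c _ b r1 r2 bb.1 (kb.trans k1.symm) l1 l2
      · exact B2 c e b r1 r2 bb he k1 k2 l1 l2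

/-- a strictly monotone map of the rationals into the interval `(lo, hi)` -/
def sq (lo hi x : ℚ) : ℚ := lo + (hi - lo) * ((1 + x / (1 + |x|)) / 2)

theorem sq_aux {x y : ℚ} (hxy : x < y) : x / (1 + |x|) < y / (1 + |y|) := by
  have h1 : 0 < 1 + |x| := by positivity
  have h2 : 0 < 1 + |y| := by positivity
  rw [div_lt_div_iff₀ h1 h2]
  rcases abs_cases x with ⟨a, b⟩ | ⟨a, b⟩ <;> rcases abs_cases y with ⟨c, d⟩ | ⟨c, d⟩ <;>
    rw [a, c] <;> nlinarith

theorem sq_lt {lo hi : ℚ} (hl : lo < hi) {x y : ℚ} : sq lo hi x < sq lo hi y ↔ x < y := by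
  have m : StrictMono (sq lo hi) := by
    intro x y hxy
    have := sq_aux hxy
    unfold sq
    nlinarith
  exact m.lt_iff_lt

theorem sq_mem {lo hi : ℚ} (hl : lo < hi) (x : ℚ) : lo < sq lo hi x ∧ sq lo hi x < hi := by
  have h1 : 0 < 1 + |x| := by positivity
  have a : -1 < x / (1 + |x|) := by
    rw [lt_div_iff₀ h1]; have := neg_abs_le x; linarith
  have b : x / (1 + |x|) < 1 := by
    rw [div_lt_iff₀ h1]; have := le_abs_self x; linarith
  unfold sq
  constructor <;> nlinarith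

end Pool.Agent.MP_3b5bbf_co
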