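import Pool.Agent.MP_3b5bbf_co.Fold

/-! The outer frame of a rectangle folded into one station. -/

set_option linter.unusedSimpArgs false

namespace Pool.Agent.MP_3b5bbf_co

def Rect (x0 x1 y0 y1 : ℤ) (c : Cell) : Prop := x0 ≤ c.x ∧ c.x < x1 ∧ y0 ≤ c.y ∧ c.y < y1

def klt (a b : ℤ × ℤ) : Prop := a.1 < b.1 ∨ (a.1 = b.1 ∧ a.2 < b.2)

def bkey (ξ : ℤ) : Cell → ℤ × ℤ
  | ⟨x, _, .s⟩ => (if ξ ≤ x then 0 else 4, x)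
  | ⟨_, y, .e⟩ => (1, y)
  | ⟨x, _, .n⟩ => (2, -x)
  | ⟨_, y, .w⟩ => (3, -y)

def fkey (x0 x1 y0 y1 ξ : ℤ) : Cell → ℤ × ℤ
  | ⟨x, y, .s⟩ => if y = y0 then (if ξ ≤ x then 0 else 4, x) else if x = x1 - 1 then (1, y)
      else if x = x0 then (3, -y) else (2, -x)
  | ⟨x, y, .e⟩ => if x = x1 - 1 then (1, y) else if y = y0 then (if ξ ≤ x then 0 else 4, x)
      else if y = y1 - 1 then (2, -x) else (3, -y)
  | ⟨x, y, .n⟩ => if y = y1 - 1 then (2, -x) else if x = x1 - 1 then (1, y)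
      else if x = x0 then (3, -y) else (if ξ ≤ x then 0 else 4, x)
  | ⟨x, y, .w⟩ => if x = x0 then (3, -y) else if y = y0 then (if ξ ≤ x then 0 else 4, x)
      else if y = y1 - 1 then (2, -x) else (1, y)

def Fr (x0 x1 y0 y1 : ℤ) (c : Cell) : Prop :=
  Rect x0 x1 y0 y1 c ∧ (c.x = x0 ∨ c.x = x1 - 1 ∨ c.y = y0 ∨ c.y = y1 - 1)

/-- values of the vertex map on the frame -/
structure FH (x0 x1 y0 y1 ξ : ℤ) (φ : V → V) : Prop where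
  d1 : x0 + 1 < ξ
  d2 : ξ < x1 - 1
  d3 : y0 + 2 ≤ y1
  out : ∀ a b, x0 ≤ a → a ≤ x1 → y0 ≤ b → b ≤ y1 → (a = x0 ∨ a = x1 ∨ b = y0 ∨ b = y1) →
    φ (2 * a, 2 * b) = (2 * ((a + b - ξ - y0) % 2), 0)
  inn : ∀ a b, x0 < a → a < x1 → y0 < b → b < y1 →
    (a = x0 + 1 ∨ a = x1 - 1 ∨ b = y0 + 1 ∨ b = y1 - 1) →
    φ (2 * a, 2 * b) = (2 * ((a + b - ξ - y0 - 1) % 2), 2)
  ctr : ∀ c, Fr x0 x1 y0 y1 c → φ c.o = (1, 1)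

variable {x0 x1 y0 y1 ξ : ℤ} {φ : V → V}

theorem FH.vo (hf : FH x0 x1 y0 y1 ξ φ) {a b t : ℤ} (h : x0 ≤ a ∧ a ≤ x1 ∧ y0 ≤ b ∧ b ≤ y1 ∧
    (a = x0 ∨ a = x1 ∨ b = y0 ∨ b = y1) ∧ t = 2 * ((a + b - ξ - y0) % 2)) :
    φ (2 * a, 2 * b) = (t, 0) := by
  obtain ⟨h1, h2, h3, h4, h5, h6⟩ := h
  rw [hf.out a b h1 h2 h3 h4 h5, h6]

theorem FH.vi (hf : FH x0 x1 y0 y1 ξ φ) {a b t : ℤ} (h : x0 < a ∧ a < x1 ∧ y0 < b ∧ b < y1 ∧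
    (a = x0 + 1 ∨ a = x1 - 1 ∨ b = y0 + 1 ∨ b = y1 - 1) ∧ t = 2 * ((a + b - ξ - y0 - 1) % 2)) :
    φ (2 * a, 2 * b) = (t, 2) := by
  obtain ⟨h1, h2, h3, h4, h5, h6⟩ := h
  rw [hf.inn a b h1 h2 h3 h4 h5, h6]

/-- explicit description of the four corner images of a frame square -/
theorem FH.sq (hf : FH x0 x1 y0 y1 ξ φ) {x y : ℤ} {d : Dir} (hc : Fr x0 x1 y0 y1 ⟨x, y, d⟩) :
    ∃ t : ℤ, (t = 0 ∨ t = 2) ∧ t = 2 * ((x + y - ξ - y0) % 2) ∧ φ (2 * x + 1, 2 * y + 1) = (1, 1) ∧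
    ((x = x0 ∧ y = y0 ∧ φ (2 * x, 2 * y) = (t, 0) ∧ φ (2 * (x + 1), 2 * y) = (2 - t, 0) ∧
      φ (2 * (x + 1), 2 * (y + 1)) = (2 - t, 2) ∧ φ (2 * x, 2 * (y + 1)) = (2 - t, 0)) ∨
    (x0 < x ∧ x < x1 - 1 ∧ y = y0 ∧ φ (2 * x, 2 * y) = (t, 0) ∧
      φ (2 * (x + 1), 2 * y) = (2 - t, 0) ∧
      φ (2 * (x + 1), 2 * (y + 1)) = (2 - t, 2) ∧ φ (2 * x, 2 * (y + 1)) = (t, 2)) ∨
    (x = x1 - 1 ∧ y = y0 ∧ φ (2 * x, 2 * y) = (t, 0) ∧ φ (2 * (x + 1), 2 * y) = (2 - t, 0) ∧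
      φ (2 * (x + 1), 2 * (y + 1)) = (t, 0) ∧ φ (2 * x, 2 * (y + 1)) = (t, 2)) ∨
    (x = x1 - 1 ∧ y0 < y ∧ y < y1 - 1 ∧ φ (2 * x, 2 * y) = (2 - t, 2) ∧
      φ (2 * (x + 1), 2 * y) = (2 - t, 0) ∧
      φ (2 * (x + 1), 2 * (y + 1)) = (t, 0) ∧ φ (2 * x, 2 * (y + 1)) = (t, 2)) ∨
    (x = x1 - 1 ∧ y = y1 - 1 ∧ φ (2 * x, 2 * y) = (2 - t, 2) ∧
      φ (2 * (x + 1), 2 * y) = (2 - t, 0) ∧
      φ (2 * (x + 1), 2 * (y + 1)) = (t, 0) ∧ φ (2 * x, 2 * (y + 1)) = (2 - t, 0)) ∨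
    (x0 < x ∧ x < x1 - 1 ∧ y = y1 - 1 ∧ φ (2 * x, 2 * y) = (2 - t, 2) ∧
      φ (2 * (x + 1), 2 * y) = (t, 2) ∧
      φ (2 * (x + 1), 2 * (y + 1)) = (t, 0) ∧ φ (2 * x, 2 * (y + 1)) = (2 - t, 0)) ∨
    (x = x0 ∧ y = y1 - 1 ∧ φ (2 * x, 2 * y) = (t, 0) ∧ φ (2 * (x + 1), 2 * y) = (t, 2) ∧
      φ (2 * (x + 1), 2 * (y + 1)) = (t, 0) ∧ φ (2 * x, 2 * (y + 1)) = (2 - t, 0)) ∨
    (x = x0 ∧ y0 < y ∧ y < y1 - 1 ∧ φ (2 * x, 2 * y) = (t, 0) ∧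
      φ (2 * (x + 1), 2 * y) = (t, 2) ∧
      φ (2 * (x + 1), 2 * (y + 1)) = (2 - t, 2) ∧ φ (2 * x, 2 * (y + 1)) = (2 - t, 0))) := by
  have hctr := hf.ctr _ hc
  obtain ⟨⟨h1, h2, h3, h4⟩, h5⟩ := hc
  simp only at h1 h2 h3 h4 h5
  have d1 := hf.d1
  have d2 := hf.d2
  have d3 := hf.d3
  refine ⟨2 * ((x + y - ξ - y0) % 2), by omega, rfl, hctr, ?_⟩
  rcases (by omega : x = x0 ∨ (x0 < x ∧ x < x1 - 1) ∨ x = x1 - 1) with hx | hx | hx <;>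
    rcases (by omega : y = y0 ∨ (y0 < y ∧ y < y1 - 1) ∨ y = y1 - 1) with hy | hy | hy
  · left
    exact ⟨hx, hy, hf.vo (by omega), hf.vo (by omega), hf.vi (by omega), hf.vo (by omega)⟩
  · right; right; right; right; right; right; right
    exact ⟨hx, hy.1, hy.2, hf.vo (by omega), hf.vi (by omega), hf.vi (by omega), hf.vo (by omega)⟩
  · right; right; right; right; right; right; left
    exact ⟨hx, hy, hf.vo (by omega), hf.vi (by omega), hf.vo (by omega), hf.vo (by omega)⟩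
  · right; left
    exact ⟨hx.1, hx.2, hy, hf.vo (by omega), hf.vo (by omega), hf.vi (by omega), hf.vi (by omega)⟩
  · omega
  · right; right; right; right; right; left
    exact ⟨hx.1, hx.2, hy, hf.vi (by omega), hf.vi (by omega), hf.vo (by omega), hf.vo (by omega)⟩
  · right; right; left
    exact ⟨hx, hy, hf.vo (by omega), hf.vo (by omega), hf.vo (by omega), hf.vi (by omega)⟩
  · right; right; right; left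
    exact ⟨hx, hy.1, hy.2, hf.vi (by omega), hf.vo (by omega), hf.vo (by omega), hf.vi (by omega)⟩
  · right; right; right; right; left
    exact ⟨hx, hy, hf.vi (by omega), hf.vo (by omega), hf.vo (by omega), hf.vo (by omega)⟩

theorem FH.good (hf : FH x0 x1 y0 y1 ξ φ) {c : Cell} (hc : Fr x0 x1 y0 y1 c) : Good φ c := by
  rcases c with ⟨x, y, d⟩
  obtain ⟨t, ht, -, ho, h⟩ := hf.sq hc
  rcases h with ⟨-, -, a, b, c, e⟩ | ⟨-, -, -, a, b, c, e⟩ | ⟨-, -, a, b, c, e⟩ |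
    ⟨-, -, -, a, b, c, e⟩ | ⟨-, -, a, b, c, e⟩ | ⟨-, -, -, a, b, c, e⟩ | ⟨-, -, a, b, c, e⟩ |
    ⟨-, -, -, a, b, c, e⟩ <;>
  cases d <;> simp only [Good, White, Black, Cell.o, Cell.p, Cell.q, ho, a, b, c, e] <;> omega

theorem FH.quarter (hf : FH x0 x1 y0 y1 ξ φ) {c : Cell} (hc : Fr x0 x1 y0 y1 c) :
    (K φ c = KP ∧ ¬ Rect x0 x1 y0 y1 (c.nb .g) ∧ fkey x0 x1 y0 y1 ξ c = bkey ξ c) ∨
    (K φ c = KF ∧ Rect x0 x1 y0 y1 (c.nb .g) ∧ fkey x0 x1 y0 y1 ξ c = bkey ξ (c.nb .g) ∧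
      (Fr x0 x1 y0 y1 (c.nb .g) → y1 = y0 + 2)) ∨
    ((K φ c = KO ∨ K φ c = KC) ∧ Fr x0 x1 y0 y1 (c.nb .g)) := by
  rcases c with ⟨x, y, d⟩
  obtain ⟨t, ht, ht', ho, h⟩ := hf.sq hc
  have d1 := hf.d1
  have d2 := hf.d2
  have d3 := hf.d3
  clear hc
  rcases h with ⟨r1, r2, a, b, c, e⟩ | ⟨r1, r2, r3, a, b, c, e⟩ | ⟨r1, r2, a, b, c, e⟩ |
    ⟨r1, r2, r3, a, b, c, e⟩ | ⟨r1, r2, a, b, c, e⟩ | ⟨r1, r2, r3, a, b, c, e⟩ |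
    ⟨r1, r2, a, b, c, e⟩ | ⟨r1, r2, r3, a, b, c, e⟩ <;>
  cases d <;>
  simp (disch := omega) only [K, KP, KF, KO, KC, Fr, Rect, Cell.nb, fkey, bkey, Cell.o, Cell.p,
    Cell.q, ho, a, b, c, e, if_pos, if_neg, Prod.mk_add_mk, Prod.mk.injEq, true_and, and_true] <;>
  omega

def Rng (x0 x1 y0 y1 ξ : ℤ) (k : ℤ × ℤ) : Prop :=
  (k.1 = 0 ∧ ξ ≤ k.2 ∧ k.2 ≤ x1 - 1) ∨ (k.1 = 1 ∧ y0 ≤ k.2 ∧ k.2 ≤ y1 - 1) ∨
  (k.1 = 2 ∧ 1 - x1 ≤ k.2 ∧ k.2 ≤ -x0) ∨ (k.1 = 3 ∧ 1 - y1 ≤ k.2 ∧ k.2 ≤ -y0) ∨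
  (k.1 = 4 ∧ x0 ≤ k.2 ∧ k.2 ≤ ξ - 1)

theorem fkey_pos (d1 : x0 + 1 < ξ) (d2 : ξ < x1 - 1) (d3 : y0 + 2 ≤ y1) {c : Cell}
    (hc : Fr x0 x1 y0 y1 c) : Rng x0 x1 y0 y1 ξ (fkey x0 x1 y0 y1 ξ c) ∧
    ((((fkey x0 x1 y0 y1 ξ c).1 = 0 ∨ (fkey x0 x1 y0 y1 ξ c).1 = 4) ∧
      c.x = (fkey x0 x1 y0 y1 ξ c).2 ∧ c.y = y0) ∨
    ((fkey x0 x1 y0 y1 ξ c).1 = 1 ∧ c.x = x1 - 1 ∧ c.y = (fkey x0 x1 y0 y1 ξ c).2) ∨
    ((fkey x0 x1 y0 y1 ξ c).1 = 2 ∧ c.x = -(fkey x0 x1 y0 y1 ξ c).2 ∧ c.y = y1 - 1) ∨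
    ((fkey x0 x1 y0 y1 ξ c).1 = 3 ∧ c.x = x0 ∧ c.y = -(fkey x0 x1 y0 y1 ξ c).2)) := by
  rcases c with ⟨x, y, d⟩
  obtain ⟨⟨h1, h2, h3, h4⟩, h5⟩ := hc
  simp only at h1 h2 h3 h4 h5
  cases d <;> simp only [fkey, Rng] <;> split_ifs <;> dsimp only <;> omega

theorem FH.inj (hf : FH x0 x1 y0 y1 ξ φ) {c b : Cell} (hc : Fr x0 x1 y0 y1 c)
    (hb : Fr x0 x1 y0 y1 b) (k : K φ c = K φ b)
    (hk : fkey x0 x1 y0 y1 ξ c = fkey x0 x1 y0 y1 ξ b) : c = b := by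
  have p1 := (fkey_pos hf.d1 hf.d2 hf.d3 hc).2
  have p2 := (fkey_pos hf.d1 hf.d2 hf.d3 hb).2
  rw [hk] at p1
  have exy : c.x = b.x ∧ c.y = b.y := by omega
  clear p1 p2 hb
  rcases b with ⟨x', y', d'⟩
  rcases c with ⟨x, y, d⟩
  obtain ⟨rfl, rfl⟩ := exy
  obtain ⟨t, ht, ht', ho, h⟩ := hf.sq hc
  have d1 := hf.d1
  have d2 := hf.d2
  have d3 := hf.d3
  clear hc ht'
  rcases h with ⟨r1, r2, a, b, c, e⟩ | ⟨r1, r2, r3, a, b, c, e⟩ | ⟨r1, r2, a, b, c, e⟩ |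
    ⟨r1, r2, r3, a, b, c, e⟩ | ⟨r1, r2, a, b, c, e⟩ | ⟨r1, r2, r3, a, b, c, e⟩ |
    ⟨r1, r2, a, b, c, e⟩ | ⟨r1, r2, r3, a, b, c, e⟩ <;>
  cases d <;> cases d' <;> first
    | rfl
    | (exfalso
       simp (disch := omega) only [K, fkey, Cell.o, Cell.p, Cell.q, ho, a, b, c, e, if_pos, if_neg,
         Prod.mk_add_mk, Prod.mk.injEq, true_and, and_true] at k hk
       omega)

/-- consecutive keys -/
def Cons (x0 x1 y0 y1 : ℤ) (k k' : ℤ × ℤ) : Prop :=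
  (k'.1 = k.1 ∧ k'.2 = k.2 + 1) ∨ (k.1 = 0 ∧ k.2 = x1 - 1 ∧ k'.1 = 1 ∧ k'.2 = y0) ∨
  (k.1 = 1 ∧ k.2 = y1 - 1 ∧ k'.1 = 2 ∧ k'.2 = 1 - x1) ∨
  (k.1 = 2 ∧ k.2 = -x0 ∧ k'.1 = 3 ∧ k'.2 = 1 - y1) ∨
  (k.1 = 3 ∧ k.2 = -y0 ∧ k'.1 = 4 ∧ k'.2 = x0)

theorem FH.diag (hf : FH x0 x1 y0 y1 ξ φ) {c : Cell} (hc : Fr x0 x1 y0 y1 c) :
    (K φ (c.nb .a) ≠ K φ c ∧ fkey x0 x1 y0 y1 ξ (c.nb .a) = fkey x0 x1 y0 y1 ξ c) ∨
    (K φ (c.nb .a) = K φ c ∧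
      Cons x0 x1 y0 y1 (fkey x0 x1 y0 y1 ξ (c.nb .a)) (fkey x0 x1 y0 y1 ξ c) ∧
      (fkey x0 x1 y0 y1 ξ (c.nb .a)).1 ≠ (fkey x0 x1 y0 y1 ξ c).1) ∨
    (K φ (c.nb .a) = K φ c ∧
      Cons x0 x1 y0 y1 (fkey x0 x1 y0 y1 ξ c) (fkey x0 x1 y0 y1 ξ (c.nb .a)) ∧
      (fkey x0 x1 y0 y1 ξ (c.nb .a)).1 ≠ (fkey x0 x1 y0 y1 ξ c).1) := by
  rcases c with ⟨x, y, d⟩
  obtain ⟨t, ht, ht', ho, h⟩ := hf.sq hc
  have d1 := hf.d1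
  have d2 := hf.d2
  have d3 := hf.d3
  clear hc ht'
  rcases h with ⟨r1, r2, a, b, c, e⟩ | ⟨r1, r2, r3, a, b, c, e⟩ | ⟨r1, r2, a, b, c, e⟩ |
    ⟨r1, r2, r3, a, b, c, e⟩ | ⟨r1, r2, a, b, c, e⟩ | ⟨r1, r2, r3, a, b, c, e⟩ |
    ⟨r1, r2, a, b, c, e⟩ | ⟨r1, r2, r3, a, b, c, e⟩ <;>
  (first
    | have iL : ∀ a b : ℤ × ℤ, (if x = x0 then a else b) = a := fun a b => if_pos (by omega)
    | have iL : ∀ a b : ℤ × ℤ, (if x = x0 then a else b) = b := fun a b => if_neg (by omega)) <;>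
  (first
    | have iR : ∀ a b : ℤ × ℤ, (if x = x1 - 1 then a else b) = a := fun a b => if_pos (by omega)
    | have iR : ∀ a b : ℤ × ℤ, (if x = x1 - 1 then a else b) = b := fun a b => if_neg (by omega)) <;>
  (first
    | have iB : ∀ a b : ℤ × ℤ, (if y = y0 then a else b) = a := fun a b => if_pos (by omega)
    | have iB : ∀ a b : ℤ × ℤ, (if y = y0 then a else b) = b := fun a b => if_neg (by omega)) <;>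
  (first
    | have iT : ∀ a b : ℤ × ℤ, (if y = y1 - 1 then a else b) = a := fun a b => if_pos (by omega)
    | have iT : ∀ a b : ℤ × ℤ, (if y = y1 - 1 then a else b) = b := fun a b => if_neg (by omega)) <;>
  cases d <;>
  simp only [K, Cons, Cell.nb, fkey, Cell.o, Cell.p, Cell.q, ho, a, b, c, e, iL, iR, iB, iT] <;>
  rcases ht with rfl | rfl <;> simp <;> omega

theorem FH.grid (hf : FH x0 x1 y0 y1 ξ φ) {c : Cell} (hc : Fr x0 x1 y0 y1 c)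
    (k : K φ c = KO ∨ K φ c = KC) :
    ∀ u v, u = fkey x0 x1 y0 y1 ξ c → v = fkey x0 x1 y0 y1 ξ (c.nb .g) →
    (v.1 = u.1 ∧ v.2 = u.2 + 1 ∧ (K φ c = KO → (u.1 = 2 → (-u.2 + y1 - ξ - y0) % 2 = 1) ∧
      (u.1 = 1 → (x1 + u.2 + 1 - ξ - y0) % 2 = 1))) ∨
    (u.1 = v.1 ∧ u.2 = v.2 + 1 ∧ (K φ c = KO → (v.1 = 2 → (-v.2 + y1 - ξ - y0) % 2 = 1) ∧
      (v.1 = 1 → (x1 + v.2 + 1 - ξ - y0) % 2 = 1))) ∨
    (K φ c = KC ∧ u.1 = 0 ∧ u.2 = ξ ∧ v.1 = 4 ∧ v.2 = ξ - 1) ∨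
    (K φ c = KC ∧ v.1 = 0 ∧ v.2 = ξ ∧ u.1 = 4 ∧ u.2 = ξ - 1) := by
  intro u v hu hv
  subst hu hv
  revert k
  rcases c with ⟨x, y, d⟩
  obtain ⟨t, ht, ht', ho, h⟩ := hf.sq hc
  have d1 := hf.d1
  have d2 := hf.d2
  have d3 := hf.d3
  obtain ⟨⟨h1, h2, h3, h4⟩, -⟩ := hc
  simp only at h1 h2 h3 h4
  have jL : ∀ a b : ℤ × ℤ, (if x + 1 = x0 then a else b) = b := fun a b => if_neg (by omega)
  have jR : ∀ a b : ℤ × ℤ, (if x - 1 = x1 - 1 then a else b) = b := fun a b => if_neg (by omega)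
  have jB : ∀ a b : ℤ × ℤ, (if y + 1 = y0 then a else b) = b := fun a b => if_neg (by omega)
  have jT : ∀ a b : ℤ × ℤ, (if y - 1 = y1 - 1 then a else b) = b := fun a b => if_neg (by omega)
  rcases h with ⟨r1, r2, a, b, c, e⟩ | ⟨r1, r2, r3, a, b, c, e⟩ | ⟨r1, r2, a, b, c, e⟩ |
    ⟨r1, r2, r3, a, b, c, e⟩ | ⟨r1, r2, a, b, c, e⟩ | ⟨r1, r2, r3, a, b, c, e⟩ |
    ⟨r1, r2, a, b, c, e⟩ | ⟨r1, r2, r3, a, b, c, e⟩ <;>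
  (first
    | have iL : ∀ a b : ℤ × ℤ, (if x = x0 then a else b) = a := fun a b => if_pos (by omega)
    | have iL : ∀ a b : ℤ × ℤ, (if x = x0 then a else b) = b := fun a b => if_neg (by omega)) <;>
  (first
    | have iR : ∀ a b : ℤ × ℤ, (if x = x1 - 1 then a else b) = a := fun a b => if_pos (by omega)
    | have iR : ∀ a b : ℤ × ℤ, (if x = x1 - 1 then a else b) = b := fun a b => if_neg (by omega)) <;>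
  (first
    | have iB : ∀ a b : ℤ × ℤ, (if y = y0 then a else b) = a := fun a b => if_pos (by omega)
    | have iB : ∀ a b : ℤ × ℤ, (if y = y0 then a else b) = b := fun a b => if_neg (by omega)) <;>
  (first
    | have iT : ∀ a b : ℤ × ℤ, (if y = y1 - 1 then a else b) = a := fun a b => if_pos (by omega)
    | have iT : ∀ a b : ℤ × ℤ, (if y = y1 - 1 then a else b) = b := fun a b => if_neg (by omega)) <;>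
  cases d <;>
  simp only [K, KO, KC, Cell.nb, fkey, Cell.o, Cell.p, Cell.q, ho, a, b, c, e, iL, iR, iB, iT,
    jL, jR, jB, jT] <;>
  rcases ht with rfl | rfl <;> simp <;> omega

theorem FH.far (hf : FH x0 x1 y0 y1 ξ φ) {c : Cell} (hc : Fr x0 x1 y0 y1 c) (hy : y1 = y0 + 2)
    (k : K φ c = KF) : x0 < c.x ∧ c.x < x1 - 1 ∧
    ((fkey x0 x1 y0 y1 ξ c = (if ξ ≤ c.x then 0 else 4, c.x) ∧
      fkey x0 x1 y0 y1 ξ (c.nb .g) = (2, -c.x)) ∨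
    (fkey x0 x1 y0 y1 ξ (c.nb .g) = (if ξ ≤ c.x then 0 else 4, c.x) ∧
      fkey x0 x1 y0 y1 ξ c = (2, -c.x))) := by
  revert k
  rcases c with ⟨x, y, d⟩
  obtain ⟨t, ht, ht', ho, h⟩ := hf.sq hc
  have d1 := hf.d1
  have d2 := hf.d2
  have d3 := hf.d3
  clear hc ht'
  rcases h with ⟨r1, r2, a, b, c, e⟩ | ⟨r1, r2, r3, a, b, c, e⟩ | ⟨r1, r2, a, b, c, e⟩ |
    ⟨r1, r2, r3, a, b, c, e⟩ | ⟨r1, r2, a, b, c, e⟩ | ⟨r1, r2, r3, a, b, c, e⟩ |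
    ⟨r1, r2, a, b, c, e⟩ | ⟨r1, r2, r3, a, b, c, e⟩ <;>
  cases d <;>
  simp only [K, KF, Cell.nb, fkey, Cell.o, Cell.p, Cell.q, ho, a, b, c, e] <;>
  rcases ht with rfl | rfl <;> simp <;> first | omega | (split_ifs <;> simp <;> omega)

theorem eps_closed {c : Cell} {e : Ed} (hc : Good φ c) (ho : φ c.o = (1, 1))
    (he : eps φ c e = (0, 2)) : e = .g ∧ K φ c = KC := by
  obtain ⟨c1, c2, c3⟩ := hc.pq
  obtain ⟨c4, c5, c6, c7, -⟩ := hc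
  cases e <;> simp only [eps, K, KC, Prod.ext_iff, Prod.fst_add, Prod.snd_add, ho] at * <;>
    simp <;> omega

theorem eps_far {c : Cell} {e : Ed} (hc : Good φ c) (ho : φ c.o = (1, 1))
    (he : eps φ c e = (2, 4)) : e = .g ∧ K φ c = KF := by
  obtain ⟨c1, c2, c3⟩ := hc.pq
  obtain ⟨c4, c5, c6, c7, -⟩ := hc
  cases e <;> simp only [eps, K, KF, Prod.ext_iff, Prod.fst_add, Prod.snd_add, ho] at * <;>
    simp <;> omega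

theorem fr_a {c : Cell} (hc : Fr x0 x1 y0 y1 c) : Fr x0 x1 y0 y1 (c.nb .a) := by
  have := nb_a_xy c
  unfold Fr Rect at *
  omega

theorem fr_b {c : Cell} (hc : Fr x0 x1 y0 y1 c) : Fr x0 x1 y0 y1 (c.nb .b) := by
  have := nb_b_xy c
  unfold Fr Rect at *
  omega

/-- the bottom and top layers of the frame -/
theorem FH.ends (hf : FH x0 x1 y0 y1 ξ φ) (κ : V × V)
    (hκ : κ = KP ∨ κ = KO ∨ κ = KC ∨ κ = KF) :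
    ∃ a b, Fr x0 x1 y0 y1 a ∧ Fr x0 x1 y0 y1 b ∧ K φ a = κ ∧ K φ b = κ ∧ Black φ a ∧ White φ b ∧
      fkey x0 x1 y0 y1 ξ a = (4, ξ - 1) ∧ fkey x0 x1 y0 y1 ξ b = (0, ξ) := by
  have d1 := hf.d1
  have d2 := hf.d2
  have d3 := hf.d3
  have fa : ∀ d, Fr x0 x1 y0 y1 ⟨ξ - 1, y0, d⟩ := fun d => by unfold Fr Rect; dsimp only; omega
  have fb : ∀ d, Fr x0 x1 y0 y1 ⟨ξ, y0, d⟩ := fun d => by unfold Fr Rect; dsimp only; omega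
  have a0 := hf.ctr _ (fa .s)
  have b0 := hf.ctr _ (fb .s)
  have a1 : φ (2 * (ξ - 1), 2 * y0) = (2, 0) := hf.vo (by omega)
  have a2 : φ (2 * (ξ - 1), 2 * (y0 + 1)) = (2, 2) := hf.vi (by omega)
  have m1 : φ (2 * ξ, 2 * y0) = (0, 0) := hf.vo (by omega)
  have m2 : φ (2 * ξ, 2 * (y0 + 1)) = (0, 2) := hf.vi (by omega)
  have b1 : φ (2 * (ξ + 1), 2 * y0) = (2, 0) := hf.vo (by omega)
  have b2 : φ (2 * (ξ + 1), 2 * (y0 + 1)) = (2, 2) := hf.vi (by omega)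
  simp only [Cell.o] at a0 b0
  have n1 : ¬ ξ ≤ ξ - 1 := by omega
  have n2 : ¬ ξ - 1 = x1 - 1 := by omega
  have n3 : ¬ ξ = x1 - 1 := by omega
  have n4 : ¬ ξ - 1 = x0 := by omega
  have n5 : ¬ ξ = x0 := by omega
  have n6 : ¬ y0 = y1 - 1 := by omega
  rcases hκ with rfl | rfl | rfl | rfl
  · refine ⟨_, _, fa .s, fb .s, ?_⟩
    simp only [K, KP, Black, White, fkey, Cell.o, Cell.p, Cell.q, sub_add_cancel, a0, b0, a1, a2,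
      m1, m2, b1, b2, n1, n2, n3, n4, n5, n6]
    simp
  · refine ⟨_, _, fa .w, fb .e, ?_⟩
    simp only [K, KO, Black, White, fkey, Cell.o, Cell.p, Cell.q, sub_add_cancel, a0, b0, a1, a2,
      m1, m2, b1, b2, n1, n2, n3, n4, n5, n6]
    simp
  · refine ⟨_, _, fa .e, fb .w, ?_⟩
    simp only [K, KC, Black, White, fkey, Cell.o, Cell.p, Cell.q, sub_add_cancel, a0, b0, a1, a2,
      m1, m2, b1, b2, n1, n2, n3, n4, n5, n6]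
    simp
  · refine ⟨_, _, fa .n, fb .n, ?_⟩
    simp only [K, KF, Black, White, fkey, Cell.o, Cell.p, Cell.q, sub_add_cancel, a0, b0, a1, a2,
      m1, m2, b1, b2, n1, n2, n3, n4, n5, n6]
    simp

end Pool.Agent.MP_3b5bbf_co
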